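import Pool.Agent.W601.SQ.Stm

set_option autoImplicit false
open scoped Classical Cardinal
open Filter Topology

namespace Pool.Agent.W748.SQ

open Pool.Agent.W601.SQ

theorem inj : S_ALG → S_KER → S_INJ := by
  intro hA hK θ hG
  obtain ⟨hadd, hone, -, -, -, hgm, hmem, -, -, hch, -, -, -⟩ := hA
  refine ⟨?_, ?_⟩
  · intro m m' h
    by_contra hne
    have hd : m - m' ≠ 0 := sub_ne_zero.mpr hne
    have h1 : gm θ m' * gm θ (m - m') = gm θ m' := by
      rw [← hgm]
      have : m' + (m - m') = m := by abel
      rw [this, h]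
    have h2 : gm θ (m - m') = 1 := by
      exact mul_eq_left.mp h1
    generalize m - m' = d at hd h2
    obtain ⟨α0, hα0⟩ := Finsupp.ne_iff.mp hd
    rw [Finsupp.zero_apply] at hα0
    obtain ⟨β, hβ⟩ := hG.2.1 (↑d.support : Set ℝ)
      (fun α => if α = α0 then 1 / (2 * (d α0 : ℝ)) else 0) d.support.countable_toSet
    have h3 : ip d (fun α => θ α β) = 1 / 2 := by
      unfold ip
      rw [Finsupp.sum, Finset.sum_eq_single α0]
      · show (d α0 : ℝ) * θ α0 β = 1 / 2
        rw [hβ α0 (by simpa using hα0)]
        have : (d α0 : ℝ) ≠ 0 := by exact_mod_cast hα0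
        rw [if_pos rfl]
        field_simp
      · intro b hb hne
        show (d b : ℝ) * θ b β = 0
        rw [hβ b (by simpa using hb), if_neg hne, mul_zero]
      · intro hb
        exact absurd (Finsupp.mem_support_iff.mpr hα0) hb
    have h4 : cx (1 / 2) = 1 := by
      have := congrFun h2 β
      simp only [gm, Pi.one_apply] at this
      rw [h3] at this
      exact this
    obtain ⟨n, hn⟩ := (hone _).mp h4
    have h5 : (2 * n : ℤ) = 1 := by
      have : (2 * (n : ℝ)) = 1 := by rw [← hn]; norm_num
      exact_mod_cast this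
    omega
  · intro s s' h
    by_contra hne
    have hd : s - s' ≠ 0 := sub_ne_zero.mpr hne
    have h1 : ∀ m, ch (s - s') (gm θ m) = 1 := by
      intro m
      have hm : gm θ m ∈ GG θ := (hmem θ _).mpr ⟨m, rfl⟩
      have h2 : ch s (gm θ m) = ch s' (gm θ m) := congrFun h ⟨gm θ m, hm⟩
      have h3 : ch (s' + (s - s')) (gm θ m) = ch s' (gm θ m) * ch (s - s') (gm θ m) := hch _ _ _ _
      have h4 : s' + (s - s') = s := by abel
      rw [h4, h2] at h3
      exact mul_eq_left.mp h3.symm
    have h2 : (Set.univ : Set (ℝ →₀ ℤ)).Countable := by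
      refine (hK θ hG _ hd).mono ?_
      intro m _
      exact h1 m
    have h3 : Function.Injective (fun α : ℝ => (Finsupp.single α (1 : ℤ))) :=
      Finsupp.single_left_injective one_ne_zero
    have h4 : Countable (ℝ →₀ ℤ) := Set.countable_univ_iff.mp h2
    have h5 : Countable ℝ := h3.countable
    exact (not_countable (α := ℝ)) h5

end Pool.Agent.W748.SQ
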